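import Mathlib
import Pool.Agent.BAPp.Stmt
import Pool.Agent.BAPp.Final
import Pool.Agent.BAPp.ILe
import Pool.Agent.BAPp.Bridge

open scoped ENNReal NNReal

set_option maxSynthPendingDepth 3

open Pool.Agent.BAPp.Stmt

/-- For every `1 < p < 2` there is a (real) Banach space `X` which satisfies the inner inequality
for `(g_p, I_p, lam)` with some `lam ≥ 1` but fails the outer inequality for every constant, i.e.
`X` fails the `lam`-BAP of order `p` for every `lam`. -/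
theorem Pool.Agent.Results.MP_6f6997_an.InnerNotOuter.result (p : ℝ) (hp1 : 1 < p) (hp2 : p < 2) :
    haveI : Fact (1 ≤ ENNReal.ofReal p) := ⟨ENNReal.one_le_ofReal.2 hp1.le⟩
    ∃ (X : Type) (_ : NormedAddCommGroup X) (_ : NormedSpace ℝ X) (_ : CompleteSpace X),
      (∃ lam : ℝ≥0, 1 ≤ lam ∧ ∀ S : X →L[ℝ] X, FiniteRank S →
        gNorm p S ≤ lam * iNorm (ENNReal.ofReal p) S) ∧
      ∀ lam : ℝ≥0, ∃ (Y : Type) (_ : NormedAddCommGroup Y) (_ : NormedSpace ℝ Y)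
        (_ : CompleteSpace Y) (T : Y →L[ℝ] X), FiniteRank T ∧
        lam * iNorm (ENNReal.ofReal p) T < gNorm p T := by
  haveI : Fact (1 ≤ ENNReal.ofReal p) := ⟨ENNReal.one_le_ofReal.2 hp1.le⟩
  obtain ⟨X, i1, i2, i3, ⟨lam, hlam, h1⟩, h2⟩ :=
    Pool.Agent.BAPp.main (fun p hp _ {Y X} _ _ _ _ d h1 h2 h3 η hη R hR T hT =>
      Pool.Agent.BAPp.ILe.iNorm_le_diag p hp d h1 h2 h3 η hη R hR T hT) p hp1 hp2
  refine ⟨X, i1, i2, i3, ⟨lam, hlam, fun S hS => ?_⟩, fun lam => ?_⟩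
  · rw [Pool.Agent.BAPp.Bridge.gNorm_eq, Pool.Agent.BAPp.Bridge.iNorm_eq]
    exact h1 S hS
  · obtain ⟨Y, j1, j2, j3, T, hT, h⟩ := h2 lam
    refine ⟨Y, j1, j2, j3, T, hT, ?_⟩
    rw [Pool.Agent.BAPp.Bridge.gNorm_eq, Pool.Agent.BAPp.Bridge.iNorm_eq]
    exact h
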